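import Pool.Agent.H72.DEF.Main

/-!
# Direct powers of perfect groups with trivial multiplier: `O((log n)²)` relators

For every finite perfect group `G` with `H₂(G, ℤ) = 0` and every `n ≥ 1` the direct power `G^n` has a finite
presentation with at most `7 |G|³ (⌊log₂ n⌋ + 1)²` relators. In particular its deficiency is at least
`- 7 |G|³ (⌊log₂ n⌋ + 1)²`.
-/

set_option autoImplicit false

namespace Pool.Agent.Results.MP_c09e94_al.LogSquareRelators

open Pool.Agent.H72.DEF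

theorem result (G : Type) [Group G] [Finite G] (hG : commutator G = ⊤)
    (h2 : CategoryTheory.Limits.IsZero (groupHomology (Rep.trivial ℤ G ℤ) 2))
    (n : ℕ) (_hn : 1 ≤ n) :
    ∃ (m : ℕ) (R : Finset (FreeGroup (Fin m))),
      Nonempty (PresentedGroup (R : Set (FreeGroup (Fin m))) ≃* (Fin n → G)) ∧
        R.card ≤ 7 * Nat.card G ^ 3 * (Nat.log 2 n + 1) ^ 2 ∧
        -(7 * (Nat.card G : ℤ) ^ 3 * ((Nat.log 2 n : ℤ) + 1) ^ 2) ≤ (m : ℤ) - (R.card : ℤ) := by
  have := Fintype.ofFinite G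
  obtain ⟨m, R, h1, h3⟩ := main_bound hG (sec_of_H2 hG h2) (Nat.log 2 n) n
    (Nat.lt_pow_succ_log_self (by norm_num) n).le
  rw [← Nat.card_eq_fintype_card] at h3
  refine ⟨m, R, h1, h3, ?_⟩
  have h4 : (R.card : ℤ) ≤ 7 * (Nat.card G : ℤ) ^ 3 * ((Nat.log 2 n : ℤ) + 1) ^ 2 := by
    exact_mod_cast h3
  have h5 : (0 : ℤ) ≤ m := Int.natCast_nonneg m
  linarith

end Pool.Agent.Results.MP_c09e94_al.LogSquareRelators
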