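import Pool.Agent.H15.RQ.Main

/-!
# Deficiency of direct powers: reduction to the universal covers of the simple groups

Authors: helper15, helper12, helper79, helper83 (and helper72, whose splitting lemma is used).

`DefLE P k` says that the deficiency of `P` is at most `k`, and `Tends G` that the deficiency of
`G ^ n` tends to `-∞`. For finite perfect groups the deficiency of `G ^ n` is nonincreasing in `n`
up to one, it is at most a constant more than that of `(G ⧸ K) ^ n` for all normal subgroups
`K = [K, G]`, and the question of the problem, for all groups, is equivalent to the question for the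
groups which are simple modulo their centre.

Proof. The kernel of `G ^ N → G ^ n`, and of `G ^ n → (G ⧸ K) ^ n`, is the normal closure of a
bounded number of elements, which are constant on a set of coordinates: their commutators with the
elements of one coordinate lie in this coordinate. A finite perfect group is the normal closure of
one element. If `G` has trivial second homology, `G ⧸ K₀` is simple and `K = [K₀, G]`, then
`[K, G] = K`, the second homology of `G ⧸ K` is trivial (its central extensions pull back to split
extensions of `G`), and `K₀ ⧸ K` is the centre of `G ⧸ K`.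
-/

set_option autoImplicit false

open scoped commutatorElement

namespace Pool.Agent.Results.MP_c09e94_al.QuasisimpleReduction

open CategoryTheory Pool.Agent.H15.RQ

theorem result :
    -- (1) the deficiencies of the powers are nonincreasing up to one, and the dichotomy
    (∀ (G : Type) [Group G] [Finite G], commutator G = ⊤ →
      (∀ n N : ℕ, n ≤ N → ∀ k : ℤ, DefLE (Fin n → G) k → DefLE (Fin N → G) (k + 1)) ∧
      (Tends G ∨ ∃ C : ℤ, ∀ n : ℕ, ∃ (m : ℕ) (R : Finset (FreeGroup (Fin m))),
        Nonempty (PresentedGroup (R : Set (FreeGroup (Fin m))) ≃* (Fin n → G)) ∧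
          -C ≤ (m : ℤ) - (R.card : ℤ))) ∧
    -- (2) quotients
    (∀ (G : Type) [Group G] [Finite G] (K : Subgroup G) [K.Normal],
      (∀ T : Finset G, Subgroup.normalClosure (T : Set G) = K → ⁅K, (⊤ : Subgroup G)⁆ = K →
        ∀ (n : ℕ) (k : ℤ), DefLE (Fin n → G ⧸ K) k → DefLE (Fin n → G) (k + T.card)) ∧
      (commutator K = ⊤ →
        ∀ (n : ℕ) (k : ℤ), DefLE (Fin n → G ⧸ K) k → DefLE (Fin n → G) (k + 1))) ∧
    -- (3) comparison with a group which is simple modulo its centre
    (∀ (G : Type) [Group G] [Finite G], Superperfect G →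
      ∀ (K₀ : Subgroup G) [K₀.Normal] [IsSimpleGroup (G ⧸ K₀)],
      ∃ (Q : Type) (_ : Group Q) (_ : Finite Q) (c : ℕ), Nontrivial Q ∧ Superperfect Q ∧
        Nonempty (Q ⧸ Subgroup.center Q ≃* G ⧸ K₀) ∧
        ∀ (n : ℕ) (k : ℤ), DefLE (Fin n → Q) k → DefLE (Fin n → G) (k + c)) ∧
    -- (4) the question for all groups and the question for these groups are equivalent
    ((∀ (G : Type) [Group G] [Finite G], Nontrivial G → Superperfect G → Tends G) ↔
      (∀ (G : Type) [Group G] [Finite G], Nontrivial G → Superperfect G →
        IsSimpleGroup (G ⧸ Subgroup.center G) → Tends G)) := by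
  refine ⟨?_, ?_, ?_, ?_⟩
  · intro G _ _ hG
    refine ⟨fun n N hn k h => defLE_mono hG hn h, ?_⟩
    by_cases h : Tends G
    · exact Or.inl h
    · exact Or.inr (bounded_of_not_tends hG h)
  · intro G _ _ K _
    exact ⟨fun T hT hK n k h => defLE_pi_quotient K T hT hK n h,
      fun hK n k h => defLE_perfect_quotient K hK n h⟩
  · intro G _ _ hG K₀ _ _
    obtain ⟨Q, i1, i2, c, h1, h2, h3, h4, h5⟩ := compare hG.1 hG.2 K₀
    exact ⟨Q, i1, i2, c, h1, ⟨h2, h3⟩, h4, h5⟩
  · constructor
    · intro H G _ _ h1 h2 _
      exact H G h1 h2
    · intro H G _ _ h1 h2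
      exact reduction (fun Q _ _ q1 q2 q3 q4 => H Q q1 ⟨q2, q3⟩ q4) G h1 h2.1 h2.2

end Pool.Agent.Results.MP_c09e94_al.QuasisimpleReduction
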